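import Mathlib

/-!
# Cubes, cylinder intersections, and the norm of a function
-/

set_option autoImplicit false

namespace Pool.Agent.Helper18.PH

open Finset ComplexConjugate

variable {X : Type}

/-- `n` conjugations. -/
noncomputable def cj (n : ℕ) (z : ℂ) : ℂ := (fun x : ℂ => conj x)^[n] z

/-- The number of the directions `l` with `e l = true`. -/
def wt {w : ℕ} (e : Fin w → Bool) : ℕ := ∑ l, (e l).toNat

/-- The vertex `e` of the cube `b`. -/
def vx {w : ℕ} (b : Fin w → Bool → X) (e : Fin w → Bool) : Fin w → X := fun l => b l (e l)

/-- The product of `f` over the `2 ^ w` vertices of the cube `b`, with alternating conjugations. -/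
noncomputable def cube {w : ℕ} (f : (Fin w → X) → ℂ) (b : Fin w → Bool → X) : ℂ :=
  ∏ e : Fin w → Bool, cj (wt e) (f (vx b e))

/-- The average of a function over a finite type. -/
noncomputable def avg {Y : Type} [Fintype Y] (f : Y → ℂ) : ℂ := (∑ y, f y) / Fintype.card Y

/-- The power of the norm of a function `φ` on a group: the average of `φ` over all cubes. -/
noncomputable def gow (w : ℕ) {B : Type} [AddCommGroup B] [Fintype B] (φ : B → ℂ) : ℂ :=
  avg (fun b : Fin w → Bool → B => cube (fun y => φ (∑ l, y l)) b)

end Pool.Agent.Helper18.PH
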