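import Pool.Agent.Helper1.PH.Bns

/-!
# The uniformity norm of a random function
-/

set_option autoImplicit false

namespace Pool.Agent.Helper18.PH

open Finset ComplexConjugate
open Pool.Agent.Helper1.PH (av avr gow gow_zero gow_succ gow_nonneg norm_av_le norm_av_sq avr_nonneg avr_mono)

variable {B G : Type} [AddCommGroup B] [Fintype B] [DecidableEq B] [AddCommGroup G] [Fintype G] [DecidableEq G]

/-- `D γ x` depends only on the values of `γ` at `x` and at the points `x + s`, `s ∈ S`, and on the value at `x` only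
through the factor `χ (γ x)`. -/
structure Good (χ : AddChar G ℂ) (S : Finset B) (D : (B → G) → B → ℂ) : Prop where
  norm_le : ∀ γ x, ‖D γ x‖ ≤ 1
  self : (0 : B) ∉ S → ∀ γ x g, D (Function.update γ x (γ x + g)) x = χ g * D γ x
  other : ∀ γ x p g, p ≠ x → p - x ∉ S → D (Function.update γ p (γ p + g)) x = D γ x

/-- The vertices of the derivative. -/
def dS (S : Finset B) (h : B) : Finset B := insert h (S ∪ S.image (fun s => s + h))

omit [Fintype B] in
theorem card_dS (S : Finset B) (h : B) : (dS S h).card + 1 ≤ 2 * (S.card + 1) := by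
  unfold dS
  have h1 := card_insert_le h (S ∪ S.image (fun s => s + h))
  have h2 := card_union_le S (S.image (fun s => s + h))
  have h3 : (S.image (fun s => s + h)).card ≤ S.card := card_image_le
  omega

omit [Fintype B] [Fintype G] [DecidableEq G] in
theorem good_base (χ : AddChar G ℂ) [Finite G] : Good (B := B) χ ∅ (fun γ x => χ (γ x)) where
  norm_le γ x := by
    rw [AddChar.norm_apply]
  self _ γ x g := by
    simp only [Function.update_self]
    rw [AddChar.map_add_eq_mul, mul_comm]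
  other γ x p g hp _ := by
    rw [Function.update_of_ne (Ne.symm hp)]

omit [Fintype B] [Fintype G] [DecidableEq G] in
theorem good_succ {χ : AddChar G ℂ} {S : Finset B} {D : (B → G) → B → ℂ} (hD : Good χ S D) (h : B) :
    Good χ (dS S h) (fun γ x => D γ x * conj (D γ (x + h))) where
  norm_le γ x := by
    rw [norm_mul, RCLike.norm_conj]
    exact mul_le_one₀ (hD.norm_le _ _) (norm_nonneg _) (hD.norm_le _ _)
  self h0 γ x g := by
    unfold dS at h0
    rw [mem_insert, mem_union, mem_image] at h0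
    push Not at h0
    obtain ⟨h1, h2, h3⟩ := h0
    have h4 : x ≠ x + h := fun e => h1 (left_eq_add.1 e).symm
    have h5 : x - (x + h) ∉ S := fun e => h3 _ e (by abel)
    rw [hD.self h2, hD.other γ (x + h) x g h4 h5]
    ring
  other γ x p g hp hS := by
    unfold dS at hS
    rw [mem_insert, mem_union, mem_image] at hS
    push Not at hS
    obtain ⟨h1, h2, h3⟩ := hS
    have h4 : p ≠ x + h := fun e => h1 (by rw [e]; abel)
    have h5 : p - (x + h) ∉ S := fun e => h3 _ e (by abel)
    rw [hD.other γ x p g hp h2, hD.other γ (x + h) p g h4 h5]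

omit [Fintype B] [DecidableEq G] in
theorem sum_eq_zero_of {χ : AddChar G ℂ} [Fintype (B → G)] (hχ : χ ≠ 1) (F : (B → G) → ℂ) (x : B)
    (hF : ∀ γ g, F (Function.update γ x (γ x + g)) = χ g * F γ) : ∑ γ, F γ = 0 := by
  obtain ⟨g, hg⟩ : ∃ g, χ g ≠ 1 := by
    by_contra hcon
    push Not at hcon
    exact hχ (by ext g; rw [hcon g, AddChar.one_apply])
  let e : (B → G) ≃ (B → G) :=
    { toFun := fun γ => Function.update γ x (γ x + g)
      invFun := fun γ => Function.update γ x (γ x - g)
      left_inv := fun γ => by simp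
      right_inv := fun γ => by simp }
  have h1 : ∑ γ, F γ = χ g * ∑ γ, F γ := by
    rw [mul_sum, ← e.sum_comp F]
    exact sum_congr rfl fun γ _ => hF γ g
  have h2 : (1 - χ g) * ∑ γ, F γ = 0 := by rw [sub_mul, one_mul, ← h1, sub_self]
  rcases mul_eq_zero.1 h2 with h3 | h3
  · exact absurd (sub_eq_zero.1 h3).symm hg
  · exact h3

theorem sum_avr {Y Z : Type} [Fintype Y] [Fintype Z] (f : Y → Z → ℝ) :
    ∑ y, avr (fun z => f y z) = avr (fun z => ∑ y, f y z) := by
  unfold Pool.Agent.Helper1.PH.avr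
  rw [← sum_div, sum_comm]

theorem sum_av {Y Z : Type} [Fintype Y] [Fintype Z] (f : Y → Z → ℂ) :
    ∑ y, av (fun z => f y z) = av (fun z => ∑ y, f y z) := by
  unfold Pool.Agent.Helper1.PH.av
  rw [← sum_div, sum_comm]

theorem gow_le_one [Nonempty B] (w : ℕ) : ∀ f : B → ℂ, (∀ x, ‖f x‖ ≤ 1) → gow w f ≤ 1 := by
  induction w with
  | zero =>
    intro f hf
    rw [gow_zero]
    have h1 : ‖av f‖ ≤ 1 := by
      refine (norm_av_le f).trans ((avr_mono hf).trans ?_)
      rw [Pool.Agent.Helper1.PH.avr_const]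
    exact pow_le_one₀ (norm_nonneg _) h1
  | succ w ih =>
    intro f hf
    rw [gow_succ]
    refine (avr_mono fun h => ih _ fun x => ?_).trans (le_of_eq (Pool.Agent.Helper1.PH.avr_const 1))
    rw [norm_mul, RCLike.norm_conj]
    exact mul_le_one₀ (hf _) (norm_nonneg _) (hf _)

theorem sum_gow_zero {χ : AddChar G ℂ} (hχ : χ ≠ 1) {S : Finset B} {D : (B → G) → B → ℂ} (hD : Good χ S D) :
    ∑ γ, gow 0 (D γ) ≤ Fintype.card (B → G) * ((if (0 : B) ∈ S then 1 else 0) +
      (S.card + 1 : ℝ) / Fintype.card B) := by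
  have hk : (0 : ℝ) < Fintype.card B := by exact_mod_cast Fintype.card_pos
  by_cases h0 : (0 : B) ∈ S
  · rw [if_pos h0]
    calc ∑ γ, gow 0 (D γ) ≤ ∑ _γ : B → G, (1 : ℝ) := sum_le_sum fun γ _ => gow_le_one 0 _ (hD.norm_le γ)
      _ = Fintype.card (B → G) * 1 := by rw [sum_const, card_univ, nsmul_eq_mul]
      _ ≤ _ := by
        refine mul_le_mul_of_nonneg_left ?_ (Nat.cast_nonneg _)
        have : 0 ≤ (S.card + 1 : ℝ) / Fintype.card B := by positivity
        linarith
  rw [if_neg h0, zero_add]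
  have h1 : ((∑ γ, gow 0 (D γ) : ℝ) : ℂ) = av fun x => av fun y => ∑ γ, D γ x * conj (D γ y) := by
    push_cast
    have h2 : ∀ γ, ((gow 0 (D γ) : ℝ) : ℂ) = av fun x => av fun y => D γ x * conj (D γ y) := by
      intro γ
      rw [gow_zero, norm_av_sq]
    simp only [h2]
    rw [sum_av]
    congr 1
    funext x
    rw [sum_av]
  have h3 : ∀ x y, ‖∑ γ, D γ x * conj (D γ y)‖ ≤
      (if x - y ∈ insert 0 S then (1 : ℝ) else 0) * Fintype.card (B → G) := by
    intro x y
    split_ifs with hxy
    · rw [one_mul]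
      refine (norm_sum_le _ _).trans ?_
      calc ∑ γ, ‖D γ x * conj (D γ y)‖ ≤ ∑ _γ : B → G, (1 : ℝ) := by
            refine sum_le_sum fun γ _ => ?_
            rw [norm_mul, RCLike.norm_conj]
            exact mul_le_one₀ (hD.norm_le _ _) (norm_nonneg _) (hD.norm_le _ _)
        _ = Fintype.card (B → G) := by rw [sum_const, card_univ, nsmul_eq_mul, mul_one]
    · rw [zero_mul]
      rw [mem_insert] at hxy
      push Not at hxy
      rw [sum_eq_zero_of hχ _ x (fun γ g => ?_), norm_zero]
      rw [hD.self h0, hD.other γ y x g (sub_ne_zero.1 hxy.1) hxy.2]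
      ring
  have h4 : ∑ γ, gow 0 (D γ) ≤ avr fun x => avr fun y =>
      (if x - y ∈ insert 0 S then (1 : ℝ) else 0) * Fintype.card (B → G) := by
    have h5 : ∑ γ, gow 0 (D γ) = ‖((∑ γ, gow 0 (D γ) : ℝ) : ℂ)‖ := by
      rw [Complex.norm_real, Real.norm_of_nonneg (sum_nonneg fun γ _ => gow_nonneg _ _)]
    rw [h5, h1]
    exact (norm_av_le _).trans (avr_mono fun x => (norm_av_le _).trans (avr_mono fun y => h3 x y))
  refine h4.trans ?_
  have h6 : ∀ x : B, (avr fun y => (if x - y ∈ insert 0 S then (1 : ℝ) else 0) * Fintype.card (B → G)) ≤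
      Fintype.card (B → G) * ((S.card + 1 : ℝ) / Fintype.card B) := by
    intro x
    unfold Pool.Agent.Helper1.PH.avr
    rw [← sum_mul, ← (Equiv.subLeft x).sum_comp]
    simp only [Equiv.subLeft_apply, sub_sub_cancel]
    rw [sum_ite_mem, univ_inter, sum_const, nsmul_eq_mul, mul_one]
    have h7 : ((insert 0 S).card : ℝ) ≤ S.card + 1 := by exact_mod_cast card_insert_le 0 S
    rw [mul_comm, ← mul_div_assoc]
    gcongr
  refine (avr_mono h6).trans (le_of_eq ?_)
  exact Pool.Agent.Helper1.PH.avr_const _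

theorem avr_mem (S : Finset B) :
    (avr fun h => if (0 : B) ∈ dS S h then (1 : ℝ) else 0) ≤
      (if (0 : B) ∈ S then 1 else 0) + (S.card + 1 : ℝ) / Fintype.card B := by
  have hk : (0 : ℝ) < Fintype.card B := by exact_mod_cast Fintype.card_pos
  by_cases h0 : (0 : B) ∈ S
  · rw [if_pos h0]
    have h1 : (avr fun h => if (0 : B) ∈ dS S h then (1 : ℝ) else 0) ≤ avr fun _ : B => (1 : ℝ) :=
      avr_mono fun h => by split_ifs <;> norm_num
    rw [Pool.Agent.Helper1.PH.avr_const] at h1
    have : 0 ≤ (S.card + 1 : ℝ) / Fintype.card B := by positivity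
    linarith
  rw [if_neg h0, zero_add]
  unfold Pool.Agent.Helper1.PH.avr
  refine div_le_div_of_nonneg_right ?_ hk.le
  have h1 : ∀ h : B, (if (0 : B) ∈ dS S h then (1 : ℝ) else 0) ≤ if -h ∈ insert 0 S then 1 else 0 := by
    intro h
    by_cases h2 : (0 : B) ∈ dS S h
    · rw [if_pos h2]
      unfold dS at h2
      rw [mem_insert, mem_union, mem_image] at h2
      have h3 : -h ∈ insert 0 S := by
        rcases h2 with h2 | h2 | ⟨s, hs, h2⟩
        · rw [mem_insert]; left; rw [← h2]; simp
        · exact absurd h2 h0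
        · rw [mem_insert]; right
          rwa [show -h = s from (eq_neg_of_add_eq_zero_left h2).symm]
      rw [if_pos h3]
    · rw [if_neg h2]
      split_ifs <;> norm_num
  calc ∑ h : B, (if (0 : B) ∈ dS S h then (1 : ℝ) else 0) ≤ ∑ h : B, if -h ∈ insert 0 S then (1 : ℝ) else 0 :=
        sum_le_sum fun h _ => h1 h
    _ = ∑ h : B, if h ∈ insert 0 S then (1 : ℝ) else 0 :=
        Equiv.sum_comp (Equiv.neg B) (fun h => if h ∈ insert 0 S then (1 : ℝ) else 0)
    _ = (insert 0 S).card := by
      rw [sum_ite_mem, univ_inter, sum_const, nsmul_eq_mul, mul_one]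
    _ ≤ S.card + 1 := by exact_mod_cast card_insert_le 0 S

theorem sum_gow {χ : AddChar G ℂ} (hχ : χ ≠ 1) (w : ℕ) : ∀ {S : Finset B} {D : (B → G) → B → ℂ}, Good χ S D →
    ∑ γ, gow w (D γ) ≤ Fintype.card (B → G) * ((if (0 : B) ∈ S then 1 else 0) +
      (2 ^ (w + 1) - 1) * ((S.card + 1 : ℝ) / Fintype.card B)) := by
  have hk : (0 : ℝ) < Fintype.card B := by exact_mod_cast Fintype.card_pos
  induction w with
  | zero =>
    intro S D hD
    have := sum_gow_zero hχ hD
    rw [show ((2 : ℝ) ^ (0 + 1) - 1) = 1 by norm_num, one_mul]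
    exact this
  | succ w ih =>
    intro S D hD
    have h1 : ∑ γ, gow (w + 1) (D γ) = avr fun h => ∑ γ, gow w (fun x => D γ x * conj (D γ (x + h))) := by
      simp only [gow_succ]
      rw [sum_avr]
    have hp : (0 : ℝ) ≤ 2 ^ (w + 1) - 1 := by
      have : (1 : ℝ) ≤ 2 ^ (w + 1) := one_le_pow₀ (by norm_num)
      linarith
    have h2 : ∀ h : B, ∑ γ, gow w (fun x => D γ x * conj (D γ (x + h))) ≤
        Fintype.card (B → G) * (if (0 : B) ∈ dS S h then 1 else 0) +
          Fintype.card (B → G) * ((2 ^ (w + 1) - 1) * (2 * (S.card + 1 : ℝ) / Fintype.card B)) := by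
      intro h
      refine (ih (good_succ hD h)).trans ?_
      rw [← mul_add]
      refine mul_le_mul_of_nonneg_left (add_le_add le_rfl ?_) (Nat.cast_nonneg _)
      refine mul_le_mul_of_nonneg_left (div_le_div_of_nonneg_right ?_ hk.le) hp
      exact_mod_cast card_dS S h
    rw [h1]
    refine (avr_mono h2).trans ?_
    have h3 : (avr fun h : B => (Fintype.card (B → G) : ℝ) * (if (0 : B) ∈ dS S h then 1 else 0) +
          Fintype.card (B → G) * ((2 ^ (w + 1) - 1) * (2 * (S.card + 1 : ℝ) / Fintype.card B))) =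
        Fintype.card (B → G) * (avr fun h : B => (if (0 : B) ∈ dS S h then (1 : ℝ) else 0)) +
          Fintype.card (B → G) * ((2 ^ (w + 1) - 1) * (2 * (S.card + 1 : ℝ) / Fintype.card B)) := by
      unfold Pool.Agent.Helper1.PH.avr
      rw [sum_add_distrib, ← mul_sum, sum_const, nsmul_eq_mul, card_univ]
      field_simp
    rw [h3, ← mul_add]
    refine mul_le_mul_of_nonneg_left ?_ (Nat.cast_nonneg _)
    have h4 := avr_mem S
    calc (avr fun h : B => (if (0 : B) ∈ dS S h then (1 : ℝ) else 0)) +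
          (2 ^ (w + 1) - 1) * (2 * (S.card + 1 : ℝ) / Fintype.card B)
        ≤ ((if (0 : B) ∈ S then 1 else 0) + (S.card + 1 : ℝ) / Fintype.card B) +
          (2 ^ (w + 1) - 1) * (2 * (S.card + 1 : ℝ) / Fintype.card B) := by linarith
      _ = _ := by ring

/-- The average of the norm of `χ ∘ γ` over all `γ`. -/
theorem sum_gow_char (w : ℕ) {χ : AddChar G ℂ} (hχ : χ ≠ 1) :
    ∑ γ : B → G, gow w (fun b => χ (γ b)) ≤ 2 ^ (w + 1) / Fintype.card B * Fintype.card (B → G) := by
  have hk : (0 : ℝ) < Fintype.card B := by exact_mod_cast Fintype.card_pos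
  have h1 := sum_gow (B := B) hχ w (good_base χ)
  simp only [notMem_empty, if_false, card_empty, Nat.cast_zero, zero_add] at h1
  refine h1.trans ?_
  rw [mul_comm]
  refine mul_le_mul_of_nonneg_right ?_ (Nat.cast_nonneg _)
  rw [mul_one_div]
  exact div_le_div_of_nonneg_right (by linarith) hk.le

/-- For most `γ` all the norms are small. -/
theorem markov (w : ℕ) (η : ℝ) :
    (Nat.card {γ : B → G // ∃ χ : AddChar G ℂ, χ ≠ 1 ∧ η < gow w (fun b => χ (γ b))} : ℝ) * (η * Fintype.card B) ≤
      2 ^ (w + 1) * Nat.card G * Nat.card (B → G) := by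
  classical
  have hk : (0 : ℝ) < Fintype.card B := by exact_mod_cast Fintype.card_pos
  rcases le_or_gt η 0 with hη | hη
  · have h1 : (Nat.card {γ : B → G // ∃ χ : AddChar G ℂ, χ ≠ 1 ∧ η < gow w (fun b => χ (γ b))} : ℝ) *
        (η * Fintype.card B) ≤ 0 :=
      mul_nonpos_of_nonneg_of_nonpos (Nat.cast_nonneg _) (mul_nonpos_of_nonpos_of_nonneg hη hk.le)
    exact h1.trans (by positivity)
  rw [Nat.card_eq_fintype_card, Fintype.card_subtype, Nat.card_eq_fintype_card, Nat.card_eq_fintype_card]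
  have h1 : ((univ.filter fun γ : B → G => ∃ χ : AddChar G ℂ, χ ≠ 1 ∧ η < gow w (fun b => χ (γ b))).card : ℝ) * η ≤
      ∑ χ : AddChar G ℂ, if χ ≠ 1 then ∑ γ : B → G, gow w (fun b => χ (γ b)) else 0 := by
    rw [← nsmul_eq_mul, ← sum_const]
    have h2 : ∀ γ ∈ univ.filter (fun γ : B → G => ∃ χ : AddChar G ℂ, χ ≠ 1 ∧ η < gow w (fun b => χ (γ b))),
        η ≤ ∑ χ : AddChar G ℂ, if χ ≠ 1 then gow w (fun b => χ (γ b)) else 0 := by
      intro γ hγ
      obtain ⟨χ, h3, h4⟩ := (mem_filter.1 hγ).2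
      have h5 : (if χ ≠ 1 then gow w (fun b => χ (γ b)) else 0) ≤
          ∑ χ : AddChar G ℂ, if χ ≠ 1 then gow w (fun b => χ (γ b)) else 0 := by
        refine single_le_sum (f := fun χ : AddChar G ℂ => if χ ≠ 1 then gow w (fun b => χ (γ b)) else 0)
          (fun χ _ => ?_) (mem_univ χ)
        split_ifs
        · exact gow_nonneg _ _
        · exact le_rfl
      rw [if_pos h3] at h5
      exact h4.le.trans h5
    refine (sum_le_sum h2).trans ?_
    refine (sum_le_sum_of_subset_of_nonneg (subset_univ _) fun γ _ _ => ?_).trans (le_of_eq ?_)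
    · refine sum_nonneg fun χ _ => ?_
      split_ifs
      · exact gow_nonneg _ _
      · exact le_rfl
    · rw [sum_comm]
      refine sum_congr rfl fun χ _ => ?_
      split_ifs
      · rfl
      · simp
  have h2 : ∑ χ : AddChar G ℂ, (if χ ≠ 1 then ∑ γ : B → G, gow w (fun b => χ (γ b)) else 0) ≤
      ∑ _χ : AddChar G ℂ, 2 ^ (w + 1) / (Fintype.card B : ℝ) * Fintype.card (B → G) := by
    refine sum_le_sum fun χ _ => ?_
    split_ifs with h3
    · exact sum_gow_char w h3
    · positivity
  rw [sum_const, card_univ, AddChar.card_eq, nsmul_eq_mul] at h2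
  calc _ = (((univ.filter fun γ : B → G => ∃ χ : AddChar G ℂ, χ ≠ 1 ∧ η < gow w (fun b => χ (γ b))).card : ℝ) * η) *
        Fintype.card B := by ring
    _ ≤ (Fintype.card G * (2 ^ (w + 1) / (Fintype.card B : ℝ) * Fintype.card (B → G))) * Fintype.card B :=
        mul_le_mul_of_nonneg_right (h1.trans h2) hk.le
    _ = _ := by
      field_simp

end Pool.Agent.Helper18.PH
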