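import Pool.Agent.Helper18.PH.Gow
import Pool.Agent.Helper1.PH.Cb

/-!
# The cylinder lemma for random functions
-/

set_option autoImplicit false

namespace Pool.Agent.Helper18.PH

open Pool.Agent.Helper96.PH (CB)
open Pool.Agent.Helper1.PH (gow cb_of)

/-- P1, with the better factor `2 ^ (w + 1)`. -/
theorem bns2 (B G : Type) [AddCommGroup B] [Fintype B] [AddCommGroup G] [Fintype G] (w : ℕ) :
    (Nat.card {γ : B → G // ¬ ∀ (ι : Type) [Fintype ι],
        CB γ ι w ((Fintype.card B : ℝ) ^ (-(Fintype.card ι : ℝ) / 2 ^ (w + 2)))} : ℝ) ≤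
      Fintype.card G * 2 ^ (w + 1) / Real.sqrt (Fintype.card B) * Nat.card (B → G) := by
  classical
  have hk : (0 : ℝ) < Fintype.card B := Nat.cast_pos.2 Fintype.card_pos
  have hs : 0 < Real.sqrt (Fintype.card B) := Real.sqrt_pos.2 hk
  have h1 := markov (B := B) (G := G) w ((Fintype.card B : ℝ) ^ (-(1 / 2) : ℝ))
  have h2 : (Fintype.card B : ℝ) ^ (-(1 / 2) : ℝ) * Fintype.card B = Real.sqrt (Fintype.card B) := by
    rw [Real.sqrt_eq_rpow, ← Real.rpow_add_one hk.ne']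
    norm_num
  rw [h2] at h1
  have h3 : Nat.card {γ : B → G // ¬ ∀ (ι : Type) [Fintype ι],
        CB γ ι w ((Fintype.card B : ℝ) ^ (-(Fintype.card ι : ℝ) / 2 ^ (w + 2)))} ≤
      Nat.card {γ : B → G // ∃ χ : AddChar G ℂ, χ ≠ 1 ∧
        (Fintype.card B : ℝ) ^ (-(1 / 2) : ℝ) < gow w (fun b => χ (γ b))} := by
    refine Nat.card_le_card_of_injective (fun γ => ⟨γ.1, ?_⟩) ?_
    · by_contra hcon
      refine γ.2 fun ι _ => cb_of w γ.1 (fun χ hχ => ?_) ι
      by_contra hlt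
      exact hcon ⟨χ, hχ, not_le.1 hlt⟩
    · intro γ γ' h
      exact Subtype.ext (congrArg (fun x : {γ : B → G // ∃ χ : AddChar G ℂ, χ ≠ 1 ∧
        (Fintype.card B : ℝ) ^ (-(1 / 2) : ℝ) < gow w (fun b => χ (γ b))} => x.1) h)
  rw [div_mul_eq_mul_div, le_div_iff₀ hs]
  refine (mul_le_mul_of_nonneg_right (Nat.cast_le.2 h3) hs.le).trans (h1.trans (le_of_eq ?_))
  rw [Nat.card_eq_fintype_card (α := G)]
  ring

/-- P1: Babai, Nisan and Szegedy for random `γ`. -/
theorem bns (B G : Type) [AddCommGroup B] [Fintype B] [AddCommGroup G] [Fintype G] (w : ℕ) :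
    (Nat.card {γ : B → G // ¬ ∀ (ι : Type) [Fintype ι],
        CB γ ι w ((Fintype.card B : ℝ) ^ (-(Fintype.card ι : ℝ) / 2 ^ (w + 2)))} : ℝ) ≤
      Fintype.card G * 4 ^ (w + 1) / Real.sqrt (Fintype.card B) * Nat.card (B → G) := by
  refine (bns2 B G w).trans ?_
  gcongr
  norm_num

end Pool.Agent.Helper18.PH
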